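import Pool.Agent.H55.Suit2

namespace Pool.Agent.Results.MP_7b4824_gt.NoSuitable

/-- the well-ordered set of countable ordinals -/
abbrev Om : Type := (Cardinal.aleph 1 : Cardinal.{0}).ord.ToType

/-- the topology on the product of copies of `ℤ` generated by the cosets `x + U_a`, where `U_a`
is the subgroup of elements vanishing at all coordinates below `a` -/
@[reducible] def star : TopologicalSpace (Om → ℤ) :=
  TopologicalSpace.generateFrom {V | ∃ (x : Om → ℤ) (a : Om), V = {y | ∀ b < a, y b = x b}}

/-- `S` is a suitable set for the (additively written) group `G` with the topology `t`. -/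
def Suitable {G : Type} [AddGroup G] (t : TopologicalSpace G) (S : Set G) : Prop :=
  @IsDiscrete G t S ∧ @IsClosed G t (insert (0 : G) S) ∧
    @Dense G t (AddSubgroup.closure S : Set G)

theorem result : ∃ H : AddSubgroup (Om → ℤ), (∀ x ∈ H, {a | x a ≠ 0}.Countable) ∧
    ∀ S : Set H, ¬ Suitable (TopologicalSpace.induced Subtype.val star) S := by
  obtain ⟨h1, h3⟩ := Pool.Agent.H55.Suit.P13_omega1
  have : Nonempty Om := by
    rw [← Cardinal.mk_ne_zero_iff, Cardinal.mk_ord_toType]
    exact (Cardinal.aleph_pos 1).ne'
  exact ⟨Pool.Agent.H55.Suit.H Om, fun x hx => Pool.Agent.H55.Suit.supp_countable hx,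
    Pool.Agent.H55.Suit.G_no_suitable h1 h3⟩

end Pool.Agent.Results.MP_7b4824_gt.NoSuitable
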